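import Mathlib

set_option autoImplicit false

namespace Pool.Agent.Results.MP_1ed635_nt.Two

open MvPolynomial

/-- The summand `l (a x + b y)^d` as a binary form. -/
noncomputable def summand (d : ℕ) (l a b : ℂ) : MvPolynomial (Fin 2) ℂ :=
  C l * (C a * X 0 + C b * X 1) ^ d

/-- The `K`-representations of `f` of length `r`, as multisets of `r` summands (so two
representations are the same iff their summands agree as forms after a reordering). -/
def Reps (K : Subfield ℂ) (d : ℕ) (f : MvPolynomial (Fin 2) ℂ) (r : ℕ) :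
    Set (Multiset (MvPolynomial (Fin 2) ℂ)) :=
  {S | Multiset.card S = r ∧ S.sum = f ∧
    ∀ T ∈ S, ∃ l ∈ K, ∃ a ∈ K, ∃ b ∈ K, T = summand d l a b}

/-- The form `4 x^4 + 6 x^2 y^2 + y^4`. -/
noncomputable def ff : MvPolynomial (Fin 2) ℂ :=
  4 * X 0 ^ 4 + 6 * X 0 ^ 2 * X 1 ^ 2 + X 1 ^ 4

theorem cls (A B : ℤ) (x y : ℚ) (hx : x ≠ 0) (h : y ^ 2 = x * (x ^ 2 + A * x + B)) :
    ∃ d d' M e N : ℤ, d * d' = B ∧ IsCoprime M e ∧ e ≠ 0 ∧ M ≠ 0 ∧
      x * (e : ℚ) ^ 2 = d * (M : ℚ) ^ 2 ∧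
      N ^ 2 = d * M ^ 4 + A * M ^ 2 * e ^ 2 + d' * e ^ 4 := by
  obtain ⟨p, hp⟩ : ∃ p : ℤ, p = x.num := ⟨_, rfl⟩
  obtain ⟨q, hq⟩ : ∃ q : ℤ, q = (x.den : ℤ) := ⟨_, rfl⟩
  have hq0 : 0 < q := by rw [hq]; exact_mod_cast x.den_pos
  have hp0 : p ≠ 0 := by rw [hp]; exact Rat.num_ne_zero.2 hx
  have hxq : x * q = p := by rw [hp, hq]; exact_mod_cast Rat.mul_den_eq_num x
  have hc : IsCoprime p q := by
    rw [hp, hq, Int.isCoprime_iff_gcd_eq_one]; exact x.reduced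
  obtain ⟨w, hw⟩ : ∃ w : ℤ, w = p ^ 2 + A * p * q + B * q ^ 2 := ⟨_, rfl⟩
  have hs : IsSquare (q * (p * w)) := by
    rw [← Rat.isSquare_intCast_iff]
    refine ⟨y * q ^ 2, ?_⟩
    rw [hw]; push_cast; rw [← hxq]; linear_combination (-(q : ℚ) ^ 4) * h
  obtain ⟨z, hz⟩ := hs
  have hcw : IsCoprime q w := by
    have : IsCoprime q (p ^ 2) := hc.symm.pow_right
    have h2 := this.add_mul_left_right (A * p + B * q)
    have e : p ^ 2 + q * (A * p + B * q) = w := by rw [hw]; ring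
    rwa [e] at h2
  obtain ⟨e, he⟩ := Int.sq_of_isCoprime (c := z) (hc.symm.mul_right hcw) (by rw [hz]; ring)
  have he : q = e ^ 2 := by
    rcases he with he | he
    · exact he
    · nlinarith [sq_nonneg e]
  have he0 : e ≠ 0 := by rintro rfl; simp at he; omega
  have hpw : IsSquare (p * w) := by
    rw [← Rat.isSquare_intCast_iff]
    refine ⟨z / e, ?_⟩
    have he0' : (e : ℚ) ≠ 0 := by exact_mod_cast he0
    have : ((e ^ 2 * (p * w) : ℤ) : ℚ) = ((z * z : ℤ) : ℚ) := by rw [← he, hz]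
    push_cast at this ⊢
    field_simp
    linear_combination this
  obtain ⟨z1, hz1⟩ := hpw
  have hg : 0 < Int.gcd p w := Int.gcd_pos_of_ne_zero_left _ hp0
  obtain ⟨p1, w1, hc1, hp1, hw1⟩ := Int.exists_gcd_one hg
  obtain ⟨g, hgd⟩ : ∃ g : ℤ, g = (Int.gcd p w : ℤ) := ⟨_, rfl⟩
  rw [← hgd] at hp1 hw1
  have hg0 : g ≠ 0 := by rw [hgd]; exact_mod_cast hg.ne'
  have hs1 : IsSquare (p1 * w1) := by
    rw [← Rat.isSquare_intCast_iff]
    refine ⟨z1 / g, ?_⟩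
    have hg0' : (g : ℚ) ≠ 0 := by exact_mod_cast hg0
    have : (((p1 * g) * (w1 * g) : ℤ) : ℚ) = ((z1 * z1 : ℤ) : ℚ) := by rw [← hp1, ← hw1, hz1]
    push_cast at this ⊢
    field_simp
    linear_combination this
  obtain ⟨z2, hz2⟩ := hs1
  have key : ∃ d M w2 : ℤ, p = d * M ^ 2 ∧ w = d * w2 := by
    obtain ⟨M, hM⟩ := Int.sq_of_gcd_eq_one (c := z2) hc1 (by rw [hz2]; ring)
    rcases hM with hM | hM
    · exact ⟨g, M, w1, by rw [hp1, hM]; ring, by rw [hw1]; ring⟩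
    · exact ⟨-g, M, -w1, by rw [hp1, hM]; ring, by rw [hw1]; ring⟩
  obtain ⟨d, M, w2, hM, hw2⟩ := key
  have hd0 : d ≠ 0 := by rintro rfl; simp at hM; exact hp0 hM
  have hM0 : M ≠ 0 := by rintro rfl; simp at hM; exact hp0 hM
  have hdq : IsCoprime d (q ^ 2) := by
    rw [hM] at hc; exact (IsCoprime.of_mul_left_left hc).pow_right
  have hdB : d ∣ B := by
    apply hdq.dvd_of_dvd_mul_right
    exact ⟨w2 - d * M ^ 4 - A * M ^ 2 * q, by
      have : B * q ^ 2 = w - p ^ 2 - A * p * q := by rw [hw]; ring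
      rw [this, hw2, hM]; ring⟩
  obtain ⟨d', hd'⟩ := hdB
  have hs2 : IsSquare w2 := by
    rw [← Rat.isSquare_intCast_iff]
    refine ⟨z1 / (d * M), ?_⟩
    have h1 : (d : ℚ) ≠ 0 := by exact_mod_cast hd0
    have h2 : (M : ℚ) ≠ 0 := by exact_mod_cast hM0
    have : (((d * M ^ 2) * (d * w2) : ℤ) : ℚ) = ((z1 * z1 : ℤ) : ℚ) := by rw [← hM, ← hw2, hz1]
    push_cast at this ⊢
    field_simp
    linear_combination this
  obtain ⟨N, hN⟩ := hs2
  refine ⟨d, d', M, e, N, hd'.symm, ?_, he0, hM0, ?_, ?_⟩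
  · rw [hM, he] at hc
    have := IsCoprime.of_mul_left_right hc
    rwa [IsCoprime.pow_iff (by norm_num) (by norm_num)] at this
  · have : ((q : ℤ) : ℚ) = (e : ℚ) ^ 2 := by rw [he]; push_cast; ring
    rw [← this, hxq, hM]; push_cast; ring
  · apply mul_left_cancel₀ hd0
    have : d * w2 = (d * M ^ 2) ^ 2 + A * (d * M ^ 2) * e ^ 2 + d * d' * (e ^ 2) ^ 2 := by
      rw [← hw2, ← hM, ← he, ← hd', hw]
    rw [hN] at this
    linear_combination this

theorem m16 : ∀ d d' M e N : ZMod 16, d * d' = -375 → 4 * d = 12 →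
    N ^ 2 = d * M ^ 4 + (-122) * M ^ 2 * e ^ 2 + d' * e ^ 4 → 8 * M = 0 ∧ 8 * e = 0 := by
  have h1 : ∀ d d' : ZMod 16, d * d' = -375 → 4 * d = 12 →
      (d = 3 ∧ d' = 3) ∨ (d = 7 ∧ d' = 15) ∨ (d = 11 ∧ d' = 11) ∨ (d = 15 ∧ d' = 7) := by
    decide +kernel
  intro d d' M e N h2 h3
  rcases h1 d d' h2 h3 with ⟨rfl, rfl⟩ | ⟨rfl, rfl⟩ | ⟨rfl, rfl⟩ | ⟨rfl, rfl⟩ <;>
    (revert M e N; decide +kernel)

theorem m3 : ∀ d d' M e N : ZMod 3, d * d' = 1024 → d = 2 →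
    N ^ 2 = d * M ^ 4 + 61 * M ^ 2 * e ^ 2 + d' * e ^ 4 → M = 0 ∧ e = 0 := by
  decide +kernel

theorem sqd (x : ℚ) (d M e c k : ℤ) (he : e ≠ 0) (h : x * (e : ℚ) ^ 2 = d * (M : ℚ) ^ 2)
    (hk : c * d = k ^ 2) : IsSquare ((c : ℚ) * x) := by
  have he' : (e : ℚ) ≠ 0 := by exact_mod_cast he
  have hk' : (c : ℚ) * d = (k : ℚ) ^ 2 := by exact_mod_cast hk
  refine ⟨k * M / e, ?_⟩
  field_simp
  linear_combination c * h + (M : ℚ) ^ 2 * hk'

theorem c4 (x y : ℚ) (hx : x ≠ 0) (h : y ^ 2 = x * (x - 125) * (x + 3)) :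
    IsSquare x ∨ IsSquare (5 * x) ∨ IsSquare (-3 * x) ∨ IsSquare (-15 * x) := by
  obtain ⟨d, d', M, e, N, hd, hc, he, -, hxe, hN⟩ :=
    cls (-122) (-375) x y hx (by rw [h]; push_cast; ring)
  have hn : (4 * d : ZMod 16) ≠ 12 := by
    intro h4
    have a1 : ((d * d' : ℤ) : ZMod 16) = ((-375 : ℤ) : ZMod 16) := by rw [hd]
    have a2 : ((N ^ 2 : ℤ) : ZMod 16) =
      ((d * M ^ 4 + (-122) * M ^ 2 * e ^ 2 + d' * e ^ 4 : ℤ) : ZMod 16) := by rw [hN]
    push_cast at a1 a2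
    obtain ⟨b1, b2⟩ := m16 d d' M e N a1 h4 a2
    obtain ⟨u, v, huv⟩ := hc
    have a3 : ((u * M + v * e : ℤ) : ZMod 16) = ((1 : ℤ) : ZMod 16) := by rw [huv]
    push_cast at a3
    have : (8 : ZMod 16) = 0 := by linear_combination (-8) * a3 + u * b1 + v * b2
    revert this; decide
  have hdv : d.natAbs ∈ Nat.divisors 375 := by
    rw [Nat.mem_divisors]
    refine ⟨?_, by norm_num⟩
    have : d ∣ (375 : ℤ) := ⟨-d', by linear_combination hd⟩
    exact Int.natAbs_dvd_natAbs.2 this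
  have hl : Nat.divisors 375 = {1, 3, 5, 15, 25, 75, 125, 375} := by decide +kernel
  rw [hl] at hdv
  simp only [Finset.mem_insert, Finset.mem_singleton] at hdv
  have hd2 : d = 1 ∨ d = 25 ∨ d = 5 ∨ d = 125 ∨ d = -3 ∨ d = -75 ∨ d = -15 ∨ d = -375 ∨
      d = -1 ∨ d = -25 ∨ d = -5 ∨ d = -125 ∨ d = 3 ∨ d = 75 ∨ d = 15 ∨ d = 375 := by omega
  rcases hd2 with rfl | rfl | rfl | rfl | rfl | rfl | rfl | rfl | hd2
  · left; simpa using sqd x _ M e 1 1 he hxe (by norm_num)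
  · left; simpa using sqd x _ M e 1 5 he hxe (by norm_num)
  · right; left; simpa using sqd x _ M e 5 5 he hxe (by norm_num)
  · right; left; simpa using sqd x _ M e 5 25 he hxe (by norm_num)
  · right; right; left; simpa using sqd x _ M e (-3) 3 he hxe (by norm_num)
  · right; right; left; simpa using sqd x _ M e (-3) 15 he hxe (by norm_num)
  · right; right; right; simpa using sqd x _ M e (-15) 15 he hxe (by norm_num)
  · right; right; right; simpa using sqd x _ M e (-15) 75 he hxe (by norm_num)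
  · exfalso; apply hn
    rcases hd2 with rfl | rfl | rfl | rfl | rfl | rfl | rfl | rfl <;> (push_cast; decide)

theorem c3 (x y : ℚ) (hx : x ≠ 0) (h : y ^ 2 = x * (x ^ 2 + 61 * x + 1024)) : IsSquare x := by
  obtain ⟨d, d', M, e, N, hd, hc, he, hM, hxe, hN⟩ :=
    cls 61 1024 x y hx (by rw [h]; push_cast; ring)
  have hn : (d : ZMod 3) ≠ 2 := by
    intro h4
    have a1 : ((d * d' : ℤ) : ZMod 3) = ((1024 : ℤ) : ZMod 3) := by rw [hd]
    have a2 : ((N ^ 2 : ℤ) : ZMod 3) =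
      ((d * M ^ 4 + 61 * M ^ 2 * e ^ 2 + d' * e ^ 4 : ℤ) : ZMod 3) := by rw [hN]
    push_cast at a1 a2
    obtain ⟨b1, b2⟩ := m3 d d' M e N a1 h4 a2
    obtain ⟨u, v, huv⟩ := hc
    have a3 : ((u * M + v * e : ℤ) : ZMod 3) = ((1 : ℤ) : ZMod 3) := by rw [huv]
    push_cast at a3
    have : (1 : ZMod 3) = 0 := by linear_combination (-1) * a3 + u * b1 + v * b2
    revert this; decide
  have hpos : 0 < d := by
    by_contra hle
    have hle : d ≤ 0 := not_lt.1 hle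
    have h1 : d * N ^ 2 = (d * M ^ 2) ^ 2 + 61 * (d * M ^ 2) * e ^ 2 + 1024 * (e ^ 2) ^ 2 := by
      rw [hN, ← hd]; ring
    have h2 : 0 < e ^ 2 := by positivity
    have h3 : d * N ^ 2 ≤ 0 := mul_nonpos_of_nonpos_of_nonneg hle (sq_nonneg N)
    nlinarith [sq_nonneg (2 * (d * M ^ 2) + 61 * e ^ 2), mul_pos h2 h2]
  have hdv : d.natAbs ∈ Nat.divisors 1024 := by
    rw [Nat.mem_divisors]
    refine ⟨?_, by norm_num⟩
    have : d ∣ (1024 : ℤ) := ⟨d', by linear_combination -hd⟩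
    exact Int.natAbs_dvd_natAbs.2 this
  have hl : Nat.divisors 1024 = {1, 2, 4, 8, 16, 32, 64, 128, 256, 512, 1024} := by
    decide +kernel
  rw [hl] at hdv
  simp only [Finset.mem_insert, Finset.mem_singleton] at hdv
  have hd2 : d = 1 ∨ d = 4 ∨ d = 16 ∨ d = 64 ∨ d = 256 ∨ d = 1024 ∨
      d = 2 ∨ d = 8 ∨ d = 32 ∨ d = 128 ∨ d = 512 := by omega
  rcases hd2 with rfl | rfl | rfl | rfl | rfl | rfl | hd2
  · simpa using sqd x _ M e 1 1 he hxe (by norm_num)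
  · simpa using sqd x _ M e 1 2 he hxe (by norm_num)
  · simpa using sqd x _ M e 1 4 he hxe (by norm_num)
  · simpa using sqd x _ M e 1 8 he hxe (by norm_num)
  · simpa using sqd x _ M e 1 16 he hxe (by norm_num)
  · simpa using sqd x _ M e 1 32 he hxe (by norm_num)
  · exfalso; apply hn
    rcases hd2 with rfl | rfl | rfl | rfl | rfl <;> (push_cast; decide)

/-- all three of `x`, `x + 3`, `x - 125` are squares -/
def BB (x : ℚ) : Prop := IsSquare x ∧ IsSquare (x + 3) ∧ IsSquare (x - 125)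

theorem half (a b c : ℚ) (hb : b ^ 2 = a ^ 2 + 3) (hc : c ^ 2 = a ^ 2 - 125)
    (h : IsSquare ((a + b) * (a + c))) :
    ∃ x0, BB x0 ∧ a ^ 2 * (4 * x0 * (x0 - 125) * (x0 + 3)) = (x0 ^ 2 + 375) ^ 2 := by
  obtain ⟨t, ht⟩ := h
  have h1 : a + b ≠ 0 := by
    intro h0; have : b = -a := by linarith
    rw [this] at hb; linarith
  have h2 : a + c ≠ 0 := by
    intro h0; have : c = -a := by linarith
    rw [this] at hc; linarith
  have e1 : (a + b) * (a + c) + 3 = (a + b) * (b + c) := by linear_combination (-1) * hb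
  have e2 : (a + b) * (a + c) - 125 = (a + c) * (b + c) := by linear_combination (-1) * hc
  obtain ⟨x0, hx0⟩ : ∃ x0, x0 = (a + b) * (a + c) := ⟨_, rfl⟩
  have hm : (t * (b + c)) ^ 2 = (x0 + 3) * (x0 - 125) := by
    rw [hx0, e1, e2]; linear_combination (-(b + c) ^ 2) * ht
  obtain ⟨m, hmm⟩ : ∃ m, m = t * (b + c) := ⟨_, rfl⟩
  rw [← hmm] at hm
  obtain ⟨Y, hY⟩ : ∃ Y, Y = (x0 - 61 + m) / 2 := ⟨_, rfl⟩
  have hq : Y ^ 2 - (x0 - 61) * Y + 1024 = 0 := by rw [hY]; linear_combination (1 / 4) * hm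
  have hY0 : Y ≠ 0 := by rintro rfl; norm_num at hq
  have ht' : x0 = t * t := by rw [hx0, ht]
  obtain ⟨s, hs⟩ := c3 Y (t * Y) hY0 (by linear_combination (-Y) * hq - Y ^ 2 * ht')
  have hs0 : s ≠ 0 := by rintro rfl; simp at hs; exact hY0 hs
  rw [hs] at hq
  refine ⟨x0, ⟨⟨t, ht'⟩, ⟨s + 32 / s, ?_⟩, ⟨s - 32 / s, ?_⟩⟩, ?_⟩
  · field_simp; linear_combination (-1) * hq
  · field_simp; linear_combination (-1) * hq
  · have e3 : x0 ^ 2 + 375 = 2 * a * ((a + b) * (a + c) * (b + c)) := by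
      rw [hx0]
      linear_combination (c ^ 2 - a ^ 2) * hb + 3 * hc
    rw [e3, hx0, e1, e2]; ring

theorem step (x : ℚ) (h : BB x) :
    ∃ x0, BB x0 ∧ x * (4 * x0 * (x0 - 125) * (x0 + 3)) = (x0 ^ 2 + 375) ^ 2 := by
  obtain ⟨⟨a, ha⟩, ⟨b, hb⟩, ⟨c, hc⟩⟩ := h
  have hb' : b ^ 2 = a ^ 2 + 3 := by linear_combination ha - hb
  have hc' : c ^ 2 = a ^ 2 - 125 := by linear_combination ha - hc
  have h1 : a + b ≠ 0 := by
    intro h0; have : b = -a := by linarith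
    rw [this] at hb'; linarith
  have h2 : a + c ≠ 0 := by
    intro h0; have : c = -a := by linarith
    rw [this] at hc'; linarith
  have e1 : (a + b) * (a + c) + 3 = (a + b) * (b + c) := by linear_combination (-1) * hb'
  have e2 : (a + b) * (a + c) - 125 = (a + c) * (b + c) := by linear_combination (-1) * hc'
  have hx : x = a ^ 2 := by rw [ha]; ring
  rw [hx]
  rcases c4 ((a + b) * (a + c)) ((a + b) * (a + c) * (b + c)) (mul_ne_zero h1 h2)
    (by rw [e1, e2]; ring) with h | ⟨t, h⟩ | ⟨t, h⟩ | ⟨t, h⟩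
  · exact half a b c hb' hc' h
  · refine half a b (-c) hb' (by rw [← hc']; ring) ⟨5 * t / (a + c), ?_⟩
    field_simp
    linear_combination 25 * h - (a + b) * (a + c) * hc'
  · refine half a (-b) c (by rw [← hb']; ring) hc' ⟨t / (a + b), ?_⟩
    field_simp
    linear_combination h - (a + b) * (a + c) * hb'
  · have := half (-a) b c (by rw [hb']; ring) (by rw [hc']; ring) ⟨5 * t / ((a + b) * (a + c)), ?_⟩
    · simpa using this
    field_simp
    linear_combination 25 * h + (a + b) * (a + c) * (c ^ 2 - a ^ 2) * hb' +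
      3 * (a + b) * (a + c) * hc'

theorem m9 : ∀ P Q D : ZMod 9, D * D = P * P + 3 * (Q * Q) → 3 * P = 0 → 3 * Q = 0 := by
  decide +kernel

theorem m5 : ∀ P Q D : ZMod 5, D * D = P * P + 3 * (Q * Q) → P = 0 → Q = 0 := by
  decide +kernel

theorem height (x x0 : ℚ) (hx : BB x) (h : BB x0)
    (e : x * (4 * x0 * (x0 - 125) * (x0 + 3)) = (x0 ^ 2 + 375) ^ 2) :
    0 < x0.num ∧ x0.num < x.num := by
  obtain ⟨h0, ⟨b, hb⟩, ⟨c, hc⟩⟩ := h
  obtain ⟨-, -, ⟨c', hc'⟩⟩ := hx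
  obtain ⟨p, hp⟩ : ∃ p : ℤ, p = x0.num := ⟨_, rfl⟩
  obtain ⟨q, hq⟩ : ∃ q : ℤ, q = (x0.den : ℤ) := ⟨_, rfl⟩
  obtain ⟨n, hn⟩ : ∃ n : ℤ, n = x.num := ⟨_, rfl⟩
  obtain ⟨m, hm⟩ : ∃ m : ℤ, m = (x.den : ℤ) := ⟨_, rfl⟩
  have hq0 : 0 < q := by rw [hq]; exact_mod_cast x0.den_pos
  have hxq : x0 * q = p := by rw [hp, hq]; exact_mod_cast Rat.mul_den_eq_num x0
  have hxm : x * m = n := by rw [hn, hm]; exact_mod_cast Rat.mul_den_eq_num x
  have hcp : IsCoprime p q := by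
    rw [hp, hq, Int.isCoprime_iff_gcd_eq_one]; exact x0.reduced
  have hcn : IsCoprime n m := by
    rw [hn, hm, Int.isCoprime_iff_gcd_eq_one]; exact x.reduced
  have hn0 : 0 < n := by rw [hn, Rat.num_pos]; nlinarith [mul_self_nonneg c']
  have hp125 : 125 ≤ p := by
    have h1 : (1 : ℚ) ≤ q := by exact_mod_cast hq0
    have h2 : (125 : ℚ) ≤ x0 := by nlinarith [mul_self_nonneg c]
    have : (125 : ℚ) ≤ p := by rw [← hxq]; nlinarith
    exact_mod_cast this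
  rw [← hp, ← hn]
  refine ⟨by omega, ?_⟩
  obtain ⟨⟨P, hP⟩, ⟨Q, hQ⟩⟩ := Rat.isSquare_iff.1 h0
  rw [← hp] at hP
  have hQ' : q = (Q : ℤ) * Q := by rw [hq, hQ]; push_cast; ring
  have hD : IsSquare (p + 3 * q) := by
    rw [← Rat.isSquare_intCast_iff]
    refine ⟨b * Q, ?_⟩
    have : (q : ℚ) = (Q : ℚ) * Q := by rw [hQ']; push_cast; ring
    push_cast; rw [← hxq, this]; linear_combination (Q : ℚ) * Q * hb
  obtain ⟨D, hD⟩ := hD
  rw [hP, hQ'] at hD
  have hPQ : IsCoprime P (Q : ℤ) := by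
    rw [hP, hQ'] at hcp
    exact IsCoprime.of_mul_right_left (IsCoprime.of_mul_left_left hcp)
  obtain ⟨u, v, huv⟩ := hPQ
  have h3 : IsCoprime P 3 := by
    rw [isCoprime_comm, Int.prime_three.irreducible.coprime_iff_not_dvd]
    rintro ⟨k, hk⟩
    have a2 : ((D * D : ℤ) : ZMod 9) = ((P * P + 3 * ((Q : ℤ) * Q) : ℤ) : ZMod 9) := by rw [hD]
    have a3 : ((u * P + v * Q : ℤ) : ZMod 9) = ((1 : ℤ) : ZMod 9) := by rw [huv]
    push_cast at a2 a3
    have a4 : (3 : ZMod 9) * (P : ZMod 9) = 0 := by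
      rw [hk]; push_cast
      have : (9 : ZMod 9) = 0 := by decide
      linear_combination (k : ZMod 9) * this
    have a5 := m9 _ _ _ a2 a4
    have : (3 : ZMod 9) = 0 := by linear_combination (-3) * a3 + u * a4 + v * a5
    revert this; decide
  have h5 : IsCoprime P 5 := by
    have p5 : Prime (5 : ℤ) := Int.prime_iff_natAbs_prime.2 (by norm_num)
    rw [isCoprime_comm, p5.irreducible.coprime_iff_not_dvd]
    rintro ⟨k, hk⟩
    have a2 : ((D * D : ℤ) : ZMod 5) = ((P * P + 3 * ((Q : ℤ) * Q) : ℤ) : ZMod 5) := by rw [hD]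
    have a3 : ((u * P + v * Q : ℤ) : ZMod 5) = ((1 : ℤ) : ZMod 5) := by rw [huv]
    push_cast at a2 a3
    have a4 : (P : ZMod 5) = 0 := by
      rw [hk]; push_cast
      have : (5 : ZMod 5) = 0 := by decide
      linear_combination (k : ZMod 5) * this
    have a5 := m5 _ _ _ a2 a4
    have : (1 : ZMod 5) = 0 := by linear_combination (-1) * a3 + u * a4 + v * a5
    revert this; decide
  have hcc : IsCoprime (p ^ 7) (3 ^ 2 * 5 ^ 6 * q ^ 7) := by
    refine IsCoprime.mul_right (IsCoprime.mul_right ?_ ?_) hcp.pow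
    · rw [hP]; exact (h3.mul_left h3).pow
    · rw [hP]; exact (h5.mul_left h5).pow
  have hI : n * (4 * p * q * (p - 125 * q) * (p + 3 * q)) = (p ^ 2 + 375 * q ^ 2) ^ 2 * m := by
    have : (n : ℚ) * (4 * p * q * (p - 125 * q) * (p + 3 * q)) =
        (p ^ 2 + 375 * q ^ 2) ^ 2 * m := by
      rw [← hxq, ← hxm]; linear_combination (q : ℚ) ^ 4 * m * e
    exact_mod_cast this
  obtain ⟨g, hg⟩ : n ∣ (p ^ 2 + 375 * q ^ 2) ^ 2 := hcn.dvd_of_dvd_mul_right ⟨_, hI.symm⟩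
  have hG : 4 * p * q * (p - 125 * q) * (p + 3 * q) = g * m := by
    apply mul_left_cancel₀ hn0.ne'
    rw [hI, hg]; ring
  have d1 : g ∣ 65536 * p ^ 7 := by
    refine ⟨(65536 * p ^ 3 - 366000 * p ^ 2 * q - 1687500 * p * q ^ 2) * n +
      (91500 * p ^ 3 - 703125 * p ^ 2 * q + 17156250 * p * q ^ 2 - 158203125 * q ^ 3) * m, ?_⟩
    linear_combination (65536 * p ^ 3 - 366000 * p ^ 2 * q - 1687500 * p * q ^ 2) * hg +
      (91500 * p ^ 3 - 703125 * p ^ 2 * q + 17156250 * p * q ^ 2 - 158203125 * q ^ 3) * hG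
  have d2 : g ∣ 65536 * (3 ^ 2 * 5 ^ 6 * q ^ 7) := by
    refine ⟨(-12 * p ^ 2 * q + 976 * p * q ^ 2 + 65536 * q ^ 3) * n +
      (3 * p ^ 3 + 122 * p ^ 2 * q + 1875 * p * q ^ 2 + 91500 * q ^ 3) * m, ?_⟩
    linear_combination (-12 * p ^ 2 * q + 976 * p * q ^ 2 + 65536 * q ^ 3) * hg +
      (3 * p ^ 3 + 122 * p ^ 2 * q + 1875 * p * q ^ 2 + 91500 * q ^ 3) * hG
  obtain ⟨r, s, hrs⟩ := hcc
  have d3 : g ∣ 65536 := by
    have : (65536 : ℤ) = r * (65536 * p ^ 7) + s * (65536 * (3 ^ 2 * 5 ^ 6 * q ^ 7)) := by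
      linear_combination (-65536) * hrs
    rw [this]; exact (d1.mul_left _).add (d2.mul_left _)
  have hg2 : g ≤ 65536 := Int.le_of_dvd (by norm_num) d3
  by_contra hlt
  have hlt : n ≤ p := not_lt.1 hlt
  have b1 : p ^ 2 ≤ p ^ 2 + 375 * q ^ 2 := by nlinarith [sq_nonneg q]
  have b2 : (p ^ 2) ^ 2 ≤ (p ^ 2 + 375 * q ^ 2) ^ 2 := pow_le_pow_left₀ (sq_nonneg p) b1 2
  have b3 : n * g ≤ p * 65536 := by nlinarith
  have b4 : 125 ^ 3 ≤ p ^ 3 := pow_le_pow_left₀ (by norm_num) hp125 3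
  nlinarith

theorem noBB (x : ℚ) : ¬ BB x := by
  have : ∀ k : ℕ, ∀ x : ℚ, x.num.toNat = k → ¬ BB x := by
    intro k
    induction k using Nat.strong_induction_on with
    | _ k ih =>
      intro x hk hx
      obtain ⟨x0, h0, e⟩ := step x hx
      obtain ⟨h1, h2⟩ := height x x0 hx h0 e
      exact ih _ (by omega) x0 rfl h0
  exact this _ x rfl

theorem quartic (s t y : ℚ) (h : y ^ 2 = 256 * s ^ 4 + 61 * s ^ 2 * t ^ 2 + 4 * t ^ 4) :
    s = 0 ∨ t = 0 := by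
  by_contra hn
  push Not at hn
  obtain ⟨hs, ht⟩ := hn
  apply noBB ((y / (s * t)) ^ 2)
  refine ⟨⟨y / (s * t), by ring⟩, ⟨(16 * s ^ 2 + 2 * t ^ 2) / (s * t), ?_⟩,
    ⟨(16 * s ^ 2 - 2 * t ^ 2) / (s * t), ?_⟩⟩
  · field_simp; linear_combination h
  · field_simp; linear_combination h

theorem classify (l1 a1 b1 l2 a2 b2 l3 a3 b3 : ℚ)
    (m0 : l1 * a1 ^ 4 + l2 * a2 ^ 4 + l3 * a3 ^ 4 = 4)
    (m1 : l1 * a1 ^ 3 * b1 + l2 * a2 ^ 3 * b2 + l3 * a3 ^ 3 * b3 = 0)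
    (m2 : l1 * a1 ^ 2 * b1 ^ 2 + l2 * a2 ^ 2 * b2 ^ 2 + l3 * a3 ^ 2 * b3 ^ 2 = 1)
    (m3 : l1 * a1 * b1 ^ 3 + l2 * a2 * b2 ^ 3 + l3 * a3 * b3 ^ 3 = 0)
    (m4 : l1 * b1 ^ 4 + l2 * b2 ^ 4 + l3 * b3 ^ 4 = 1) :
    (l1 * l2 * l3 * ((a1 * b2 - a2 * b1) * (a1 * b3 - a3 * b1) * (a2 * b3 - a3 * b2)) ^ 2 = 3) ∧
    ((a1 * (a1 - 2 * b1) * (a1 + 2 * b1) = 0 ∧ a2 * (a2 - 2 * b2) * (a2 + 2 * b2) = 0 ∧
      a3 * (a3 - 2 * b3) * (a3 + 2 * b3) = 0) ∨
    (b1 * (a1 - b1) * (a1 + b1) = 0 ∧ b2 * (a2 - b2) * (a2 + b2) = 0 ∧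
      b3 * (a3 - b3) * (a3 + b3) = 0)) := by
  have hD : l1 * l2 * l3 *
      ((a1 * b2 - a2 * b1) * (a1 * b3 - a3 * b1) * (a2 * b3 - a3 * b2)) ^ 2 = 3 := by
    have : ∀ c0 c1 c2 c3 c4 : ℚ, c0 = 4 → c1 = 0 → c2 = 1 → c3 = 0 → c4 = 1 →
        c0 * (c2 * c4 - c3 ^ 2) - c1 * (c1 * c4 - c2 * c3) + c2 * (c1 * c3 - c2 ^ 2) = 3 := by
      rintro _ _ _ _ _ rfl rfl rfl rfl rfl; norm_num
    rw [← this _ _ _ _ _ m0 m1 m2 m3 m4]; ring
  refine ⟨hD, ?_⟩
  obtain ⟨h0, e0⟩ : ∃ h, h = b1 * b2 * b3 := ⟨_, rfl⟩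
  obtain ⟨h1, e1⟩ : ∃ h, h = -(a1 * b2 * b3 + b1 * a2 * b3 + b1 * b2 * a3) := ⟨_, rfl⟩
  obtain ⟨h2, e2⟩ : ∃ h, h = a1 * a2 * b3 + a1 * b2 * a3 + b1 * a2 * a3 := ⟨_, rfl⟩
  obtain ⟨h3, e3⟩ : ∃ h, h = -(a1 * a2 * a3) := ⟨_, rfl⟩
  have r1 : h2 = -4 * h0 := by
    have : h0 * 4 + h1 * 0 + h2 * 1 + h3 * 0 = 0 := by
      rw [← m0]; nth_rewrite 1 [← m1]; rw [← m2]; nth_rewrite 1 [← m3]
      rw [e0, e1, e2, e3]; ring
    linarith
  have r2 : h3 = -h1 := by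
    have : h0 * (l1 * a1 ^ 3 * b1 + l2 * a2 ^ 3 * b2 + l3 * a3 ^ 3 * b3) +
        h1 * (l1 * a1 ^ 2 * b1 ^ 2 + l2 * a2 ^ 2 * b2 ^ 2 + l3 * a3 ^ 2 * b3 ^ 2) +
        h2 * (l1 * a1 * b1 ^ 3 + l2 * a2 * b2 ^ 3 + l3 * a3 * b3 ^ 3) +
        h3 * (l1 * b1 ^ 4 + l2 * b2 ^ 4 + l3 * b3 ^ 4) = 0 := by
      rw [e0, e1, e2, e3]; ring
    rw [m1, m2, m3, m4] at this
    linarith
  obtain ⟨D, hD2⟩ : ∃ D, D = (a1 * b2 - a2 * b1) * (a1 * b3 - a3 * b1) * (a2 * b3 - a3 * b2) :=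
    ⟨_, rfl⟩
  have hdisc : D ^ 2 = h1 ^ 2 * h2 ^ 2 - 4 * h0 * h2 ^ 3 - 4 * h1 ^ 3 * h3 - 27 * h0 ^ 2 * h3 ^ 2
      + 18 * h0 * h1 * h2 * h3 := by
    rw [hD2, e0, e1, e2, e3]; ring
  rw [← hD2] at hD
  have hD0 : D ≠ 0 := by rintro rfl; norm_num at hD
  have z1 : h0 * a1 ^ 3 + h1 * a1 ^ 2 * b1 + h2 * a1 * b1 ^ 2 + h3 * b1 ^ 3 = 0 := by
    rw [e0, e1, e2, e3]; ring
  have z2 : h0 * a2 ^ 3 + h1 * a2 ^ 2 * b2 + h2 * a2 * b2 ^ 2 + h3 * b2 ^ 3 = 0 := by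
    rw [e0, e1, e2, e3]; ring
  have z3 : h0 * a3 ^ 3 + h1 * a3 ^ 2 * b3 + h2 * a3 * b3 ^ 2 + h3 * b3 ^ 3 = 0 := by
    rw [e0, e1, e2, e3]; ring
  clear e0 e1 e2 e3 hD2
  subst r1 r2
  rcases quartic h0 h1 D (by rw [hdisc]; ring) with h | h
  · right
    subst h
    have hh : h1 ≠ 0 := by rintro rfl; apply hD0; simpa using hdisc
    refine ⟨mul_left_cancel₀ hh ?_, mul_left_cancel₀ hh ?_, mul_left_cancel₀ hh ?_⟩
    · linear_combination z1
    · linear_combination z2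
    · linear_combination z3
  · left
    subst h
    have hh : h0 ≠ 0 := by rintro rfl; apply hD0; simpa using hdisc
    refine ⟨mul_left_cancel₀ hh ?_, mul_left_cancel₀ hh ?_, mul_left_cancel₀ hh ?_⟩
    · linear_combination z1
    · linear_combination z2
    · linear_combination z3

theorem sm_scale (l a b t : ℂ) : summand 4 l (t * a) (t * b) = summand 4 (l * t ^ 4) a b := by
  simp only [summand, map_mul, map_pow]; ring

theorem sm_neg (l a b : ℂ) : summand 4 l (-a) b = summand 4 l a (-b) := by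
  simp only [summand, map_neg]; ring

/-- first representation -/
noncomputable def S1 : Multiset (MvPolynomial (Fin 2) ℂ) :=
  {summand 4 (3 / 4) 0 1, summand 4 (1 / 8) 2 1, summand 4 (1 / 8) (-2) 1}

/-- second representation -/
noncomputable def S2 : Multiset (MvPolynomial (Fin 2) ℂ) :=
  {summand 4 3 1 0, summand 4 (1 / 2) 1 1, summand 4 (1 / 2) 1 (-1)}

theorem p12 {α : Type*} (a b c : α) : ({a, b, c} : Multiset α) = {b, a, c} := by
  simp only [Multiset.insert_eq_cons]; exact Multiset.cons_swap _ _ _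

theorem p23 {α : Type*} (a b c : α) : ({a, b, c} : Multiset α) = {a, c, b} := by
  simp only [Multiset.insert_eq_cons]; congr 1; exact Multiset.pair_comm _ _

theorem base1 (l1 b1 l2 b2 l3 b3 : ℚ)
    (m0 : l1 * 0 ^ 4 + l2 * (2 * b2) ^ 4 + l3 * (-2 * b3) ^ 4 = 4)
    (m1 : l1 * 0 ^ 3 * b1 + l2 * (2 * b2) ^ 3 * b2 + l3 * (-2 * b3) ^ 3 * b3 = 0)
    (m4 : l1 * b1 ^ 4 + l2 * b2 ^ 4 + l3 * b3 ^ 4 = 1) :
    ({summand 4 l1 ((0 : ℚ) : ℂ) b1, summand 4 l2 ((2 * b2 : ℚ) : ℂ) b2,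
      summand 4 l3 ((-2 * b3 : ℚ) : ℂ) b3} : Multiset _) = S1 := by
  have c1 : l1 * b1 ^ 4 = 3 / 4 := by linear_combination m4 - (1 / 16) * m0
  have c2 : l2 * b2 ^ 4 = 1 / 8 := by linear_combination (1 / 32) * m0 + (1 / 16) * m1
  have c3 : l3 * b3 ^ 4 = 1 / 8 := by linear_combination (1 / 32) * m0 - (1 / 16) * m1
  have d1 : (l1 : ℂ) * b1 ^ 4 = 3 / 4 := by
    have := congrArg (fun x : ℚ => (x : ℂ)) c1
    push_cast at this; exact this
  have d2 : (l2 : ℂ) * b2 ^ 4 = 1 / 8 := by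
    have := congrArg (fun x : ℚ => (x : ℂ)) c2
    push_cast at this; exact this
  have d3 : (l3 : ℂ) * b3 ^ 4 = 1 / 8 := by
    have := congrArg (fun x : ℚ => (x : ℂ)) c3
    push_cast at this; exact this
  unfold S1
  rw [← d1, ← sm_scale]
  nth_rewrite 1 [← d2]
  rw [← d3, ← sm_scale, ← sm_scale]
  push_cast
  simp only [mul_zero, mul_one, mul_comm (2 : ℂ), mul_comm (-2 : ℂ)]

theorem base2 (l1 a1 l2 a2 l3 a3 : ℚ)
    (m0 : l1 * a1 ^ 4 + l2 * a2 ^ 4 + l3 * a3 ^ 4 = 4)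
    (m3 : l1 * a1 * 0 ^ 3 + l2 * a2 * a2 ^ 3 + l3 * a3 * (-a3) ^ 3 = 0)
    (m4 : l1 * 0 ^ 4 + l2 * a2 ^ 4 + l3 * (-a3) ^ 4 = 1) :
    ({summand 4 l1 a1 ((0 : ℚ) : ℂ), summand 4 l2 a2 a2,
      summand 4 l3 a3 ((-a3 : ℚ) : ℂ)} : Multiset _) = S2 := by
  have c1 : l1 * a1 ^ 4 = 3 := by linear_combination m0 - m4
  have c2 : l2 * a2 ^ 4 = 1 / 2 := by linear_combination (1 / 2) * m4 + (1 / 2) * m3
  have c3 : l3 * a3 ^ 4 = 1 / 2 := by linear_combination (1 / 2) * m4 - (1 / 2) * m3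
  have d1 : (l1 : ℂ) * a1 ^ 4 = 3 := by
    have := congrArg (fun x : ℚ => (x : ℂ)) c1
    push_cast at this; exact this
  have d2 : (l2 : ℂ) * a2 ^ 4 = 1 / 2 := by
    have := congrArg (fun x : ℚ => (x : ℂ)) c2
    push_cast at this; exact this
  have d3 : (l3 : ℂ) * a3 ^ 4 = 1 / 2 := by
    have := congrArg (fun x : ℚ => (x : ℂ)) c3
    push_cast at this; exact this
  unfold S2
  rw [← d1, ← sm_scale]
  nth_rewrite 1 [← d2]
  rw [← d3, ← sm_scale, ← sm_scale]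
  push_cast
  simp only [mul_zero, mul_one, mul_neg]

theorem tri (x y z : ℚ) (h : x * y * z = 0) : x = 0 ∨ y = 0 ∨ z = 0 := by
  rcases mul_eq_zero.1 h with h | h
  · rcases mul_eq_zero.1 h with h | h
    · exact Or.inl h
    · exact Or.inr (Or.inl h)
  · exact Or.inr (Or.inr h)

theorem key (l1 a1 b1 l2 a2 b2 l3 a3 b3 : ℚ)
    (h : summand 4 l1 a1 b1 + summand 4 l2 a2 b2 + summand 4 l3 a3 b3 = ff) :
    l3 ≠ 0 ∧ (({summand 4 l1 a1 b1, summand 4 l2 a2 b2, summand 4 l3 a3 b3} : Multiset _) = S1 ∨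
      ({summand 4 l1 a1 b1, summand 4 l2 a2 b2, summand 4 l3 a3 b3} : Multiset _) = S2) := by
  have ev : ∀ x y : ℚ, l1 * (a1 * x + b1 * y) ^ 4 + l2 * (a2 * x + b2 * y) ^ 4 +
      l3 * (a3 * x + b3 * y) ^ 4 = 4 * x ^ 4 + 6 * x ^ 2 * y ^ 2 + y ^ 4 := by
    intro x y
    have := congrArg (eval ![(x : ℂ), (y : ℂ)]) h
    simp [summand, ff] at this
    apply Rat.cast_injective (α := ℂ)
    push_cast; linear_combination this
  have m0 : l1 * a1 ^ 4 + l2 * a2 ^ 4 + l3 * a3 ^ 4 = 4 := by linear_combination ev 1 0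
  have m4 : l1 * b1 ^ 4 + l2 * b2 ^ 4 + l3 * b3 ^ 4 = 1 := by linear_combination ev 0 1
  have m2 : l1 * a1 ^ 2 * b1 ^ 2 + l2 * a2 ^ 2 * b2 ^ 2 + l3 * a3 ^ 2 * b3 ^ 2 = 1 := by
    linear_combination (1 / 12) * (ev 1 1 + ev 1 (-1)) - (1 / 6) * m0 - (1 / 6) * m4
  have m1 : l1 * a1 ^ 3 * b1 + l2 * a2 ^ 3 * b2 + l3 * a3 ^ 3 * b3 = 0 := by
    linear_combination (1 / 48) * (ev 2 1 - ev 2 (-1)) - (1 / 24) * (ev 1 1 - ev 1 (-1))
  have m3 : l1 * a1 * b1 ^ 3 + l2 * a2 * b2 ^ 3 + l3 * a3 * b3 ^ 3 = 0 := by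
    linear_combination (1 / 8) * (ev 1 1 - ev 1 (-1)) - m1
  obtain ⟨hD, hc⟩ := classify l1 a1 b1 l2 a2 b2 l3 a3 b3 m0 m1 m2 m3 m4
  refine ⟨by rintro rfl; norm_num at hD, ?_⟩
  rcases hc with ⟨k1, k2, k3⟩ | ⟨k1, k2, k3⟩
  · left
    have t : ∀ a b : ℚ, a * (a - 2 * b) * (a + 2 * b) = 0 → a = 0 ∨ a = 2 * b ∨ a = -2 * b := by
      intro a b h
      rcases tri _ _ _ h with h | h | h
      · exact Or.inl h
      · exact Or.inr (Or.inl (by linarith))
      · exact Or.inr (Or.inr (by linarith))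
    rcases t _ _ k1 with rfl | rfl | rfl <;> rcases t _ _ k2 with rfl | rfl | rfl <;>
      rcases t _ _ k3 with rfl | rfl | rfl
    · exfalso; ring_nf at hD; norm_num at hD
    · exfalso; ring_nf at hD; norm_num at hD
    · exfalso; ring_nf at hD; norm_num at hD
    · exfalso; ring_nf at hD; norm_num at hD
    · exfalso; ring_nf at hD; norm_num at hD
    · exact base1 l1 b1 l2 b2 l3 b3
        (by linear_combination m0)
        (by linear_combination m1)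
        (by linear_combination m4)
    · exfalso; ring_nf at hD; norm_num at hD
    · exact (p23 _ _ _).trans (base1 l1 b1 l3 b3 l2 b2
        (by linear_combination m0)
        (by linear_combination m1)
        (by linear_combination m4))
    · exfalso; ring_nf at hD; norm_num at hD
    · exfalso; ring_nf at hD; norm_num at hD
    · exfalso; ring_nf at hD; norm_num at hD
    · exact (p12 _ _ _).trans (base1 l2 b2 l1 b1 l3 b3
        (by linear_combination m0)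
        (by linear_combination m1)
        (by linear_combination m4))
    · exfalso; ring_nf at hD; norm_num at hD
    · exfalso; ring_nf at hD; norm_num at hD
    · exfalso; ring_nf at hD; norm_num at hD
    · exact (p23 _ _ _).trans ((p12 _ _ _).trans (base1 l3 b3 l1 b1 l2 b2
        (by linear_combination m0)
        (by linear_combination m1)
        (by linear_combination m4)))
    · exfalso; ring_nf at hD; norm_num at hD
    · exfalso; ring_nf at hD; norm_num at hD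
    · exfalso; ring_nf at hD; norm_num at hD
    · exact (p12 _ _ _).trans ((p23 _ _ _).trans (base1 l2 b2 l3 b3 l1 b1
        (by linear_combination m0)
        (by linear_combination m1)
        (by linear_combination m4)))
    · exfalso; ring_nf at hD; norm_num at hD
    · exact (p12 _ _ _).trans ((p23 _ _ _).trans ((p12 _ _ _).trans (base1 l3 b3 l2 b2 l1 b1
        (by linear_combination m0)
        (by linear_combination m1)
        (by linear_combination m4))))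
    · exfalso; ring_nf at hD; norm_num at hD
    · exfalso; ring_nf at hD; norm_num at hD
    · exfalso; ring_nf at hD; norm_num at hD
    · exfalso; ring_nf at hD; norm_num at hD
    · exfalso; ring_nf at hD; norm_num at hD
  · right
    have t : ∀ a b : ℚ, b * (a - b) * (a + b) = 0 → b = 0 ∨ a = b ∨ b = -a := by
      intro a b h
      rcases tri _ _ _ h with h | h | h
      · exact Or.inl h
      · exact Or.inr (Or.inl (by linarith))
      · exact Or.inr (Or.inr (by linarith))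
    rcases t _ _ k1 with rfl | rfl | rfl <;> rcases t _ _ k2 with rfl | rfl | rfl <;>
      rcases t _ _ k3 with rfl | rfl | rfl
    · exfalso; ring_nf at hD; norm_num at hD
    · exfalso; ring_nf at hD; norm_num at hD
    · exfalso; ring_nf at hD; norm_num at hD
    · exfalso; ring_nf at hD; norm_num at hD
    · exfalso; ring_nf at hD; norm_num at hD
    · exact base2 l1 a1 l2 a2 l3 a3
        (by linear_combination m0)
        (by linear_combination m3)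
        (by linear_combination m4)
    · exfalso; ring_nf at hD; norm_num at hD
    · exact (p23 _ _ _).trans (base2 l1 a1 l3 a3 l2 a2
        (by linear_combination m0)
        (by linear_combination m3)
        (by linear_combination m4))
    · exfalso; ring_nf at hD; norm_num at hD
    · exfalso; ring_nf at hD; norm_num at hD
    · exfalso; ring_nf at hD; norm_num at hD
    · exact (p12 _ _ _).trans (base2 l2 a2 l1 a1 l3 a3
        (by linear_combination m0)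
        (by linear_combination m3)
        (by linear_combination m4))
    · exfalso; ring_nf at hD; norm_num at hD
    · exfalso; ring_nf at hD; norm_num at hD
    · exfalso; ring_nf at hD; norm_num at hD
    · exact (p23 _ _ _).trans ((p12 _ _ _).trans (base2 l3 a3 l1 a1 l2 a2
        (by linear_combination m0)
        (by linear_combination m3)
        (by linear_combination m4)))
    · exfalso; ring_nf at hD; norm_num at hD
    · exfalso; ring_nf at hD; norm_num at hD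
    · exfalso; ring_nf at hD; norm_num at hD
    · exact (p12 _ _ _).trans ((p23 _ _ _).trans (base2 l2 a2 l3 a3 l1 a1
        (by linear_combination m0)
        (by linear_combination m3)
        (by linear_combination m4)))
    · exfalso; ring_nf at hD; norm_num at hD
    · exact (p12 _ _ _).trans ((p23 _ _ _).trans ((p12 _ _ _).trans (base2 l3 a3 l2 a2 l1 a1
        (by linear_combination m0)
        (by linear_combination m3)
        (by linear_combination m4))))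
    · exfalso; ring_nf at hD; norm_num at hD
    · exfalso; ring_nf at hD; norm_num at hD
    · exfalso; ring_nf at hD; norm_num at hD
    · exfalso; ring_nf at hD; norm_num at hD
    · exfalso; ring_nf at hD; norm_num at hD

theorem botq (z : ℂ) (h : z ∈ (⊥ : Subfield ℂ)) : ∃ q : ℚ, z = q := by
  have : (⊥ : Subfield ℂ) ≤ (algebraMap ℚ ℂ).fieldRange := bot_le
  obtain ⟨q, hq⟩ := this h
  exact ⟨q, by simpa using hq.symm⟩

theorem smq (T : MvPolynomial (Fin 2) ℂ)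
    (h : ∃ l ∈ (⊥ : Subfield ℂ), ∃ a ∈ (⊥ : Subfield ℂ), ∃ b ∈ (⊥ : Subfield ℂ),
      T = summand 4 l a b) : ∃ l a b : ℚ, T = summand 4 l a b := by
  obtain ⟨l, hl, a, ha, b, hb, rfl⟩ := h
  obtain ⟨l, rfl⟩ := botq l hl
  obtain ⟨a, rfl⟩ := botq a ha
  obtain ⟨b, rfl⟩ := botq b hb
  exact ⟨l, a, b, rfl⟩

theorem smz : summand 4 ((0 : ℚ) : ℂ) ((0 : ℚ) : ℂ) ((0 : ℚ) : ℂ) = 0 := by simp [summand]

theorem memq (l a b : ℚ) : ∃ l' ∈ (⊥ : Subfield ℂ), ∃ a' ∈ (⊥ : Subfield ℂ),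
    ∃ b' ∈ (⊥ : Subfield ℂ), summand 4 l a b = summand 4 l' a' b' :=
  ⟨l, SubfieldClass.ratCast_mem _ _, a, SubfieldClass.ratCast_mem _ _, b,
    SubfieldClass.ratCast_mem _ _, rfl⟩

theorem S1_mem : S1 ∈ Reps ⊥ 4 ff 3 := by
  refine ⟨by simp [S1], ?_, ?_⟩
  · apply MvPolynomial.funext
    intro x
    simp [S1, summand, ff]; ring
  · intro T hT
    simp only [S1, Multiset.insert_eq_cons, Multiset.mem_cons, Multiset.mem_singleton] at hT
    rcases hT with rfl | rfl | rfl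
    · simpa using memq (3 / 4) 0 1
    · simpa using memq (1 / 8) 2 1
    · simpa using memq (1 / 8) (-2) 1

theorem S2_mem : S2 ∈ Reps ⊥ 4 ff 3 := by
  refine ⟨by simp [S2], ?_, ?_⟩
  · apply MvPolynomial.funext
    intro x
    simp [S2, summand, ff]; ring
  · intro T hT
    simp only [S2, Multiset.insert_eq_cons, Multiset.mem_cons, Multiset.mem_singleton] at hT
    rcases hT with rfl | rfl | rfl
    · simpa using memq 3 1 0
    · simpa using memq (1 / 2) 1 1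
    · simpa using memq (1 / 2) 1 (-1)

theorem S_ne : S1 ≠ S2 := by
  intro h
  have : summand 4 (3 / 4) 0 1 ∈ S2 := by rw [← h]; simp [S1]
  simp only [S2, Multiset.insert_eq_cons, Multiset.mem_cons, Multiset.mem_singleton] at this
  rcases this with h | h | h <;>
    (have := congrArg (eval ![(1 : ℂ), 0]) h; simp [summand] at this)

theorem reps3 : Reps ⊥ 4 ff 3 = {S1, S2} := by
  ext S
  constructor
  · rintro ⟨hc, hs, hT⟩
    obtain ⟨x, y, z, rfl⟩ := Multiset.card_eq_three.1 hc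
    obtain ⟨l1, a1, b1, rfl⟩ := smq x (hT x (by simp))
    obtain ⟨l2, a2, b2, rfl⟩ := smq y (hT y (by simp))
    obtain ⟨l3, a3, b3, rfl⟩ := smq z (hT z (by simp))
    exact (key _ _ _ _ _ _ _ _ _ (by rw [← hs]; simp [add_assoc])).2
  · rintro (rfl | rfl)
    · exact S1_mem
    · exact S2_mem

theorem least : IsLeast {r | (Reps ⊥ 4 ff r).Nonempty} 3 := by
  refine ⟨⟨S1, S1_mem⟩, ?_⟩
  rintro r ⟨S, hc, hs, hT⟩
  by_contra hlt
  have : r = 0 ∨ r = 1 ∨ r = 2 := by omega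
  rcases this with rfl | rfl | rfl
  · rw [Multiset.card_eq_zero] at hc
    subst hc
    exact (key 0 0 0 0 0 0 0 0 0 (by rw [← hs, smz]; simp)).1 rfl
  · obtain ⟨x, rfl⟩ := Multiset.card_eq_one.1 hc
    obtain ⟨l1, a1, b1, rfl⟩ := smq x (hT x (by simp))
    exact (key l1 a1 b1 0 0 0 0 0 0 (by rw [← hs, smz]; simp)).1 rfl
  · obtain ⟨x, y, rfl⟩ := Multiset.card_eq_two.1 hc
    obtain ⟨l1, a1, b1, rfl⟩ := smq x (hT x (by simp))
    obtain ⟨l2, a2, b2, rfl⟩ := smq y (hT y (by simp))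
    exact (key l1 a1 b1 l2 a2 b2 0 0 0 (by rw [← hs, smz]; simp)).1 rfl

theorem coeffs (m : Fin 2 →₀ ℕ) : coeff m ff ∈ (⊥ : Subfield ℂ) := by
  have : ff = map (algebraMap ℚ ℂ) (4 * X 0 ^ 4 + 6 * X 0 ^ 2 * X 1 ^ 2 + X 1 ^ 4) := by
    simp [ff, map_ofNat]
  rw [this, coeff_map]
  exact SubfieldClass.ratCast_mem _ _

theorem homog : ff.IsHomogeneous 4 := by
  unfold ff
  have h4 : (4 : MvPolynomial (Fin 2) ℂ) = C 4 := rfl
  have h6 : (6 : MvPolynomial (Fin 2) ℂ) = C 6 := rfl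
  rw [h4, h6]
  refine IsHomogeneous.add (IsHomogeneous.add ?_ ?_) ?_
  · simpa using (isHomogeneous_C _ (4 : ℂ)).mul ((isHomogeneous_X ℂ (0 : Fin 2)).pow 4)
  · simpa using ((isHomogeneous_C _ (6 : ℂ)).mul ((isHomogeneous_X ℂ (0 : Fin 2)).pow 2)).mul
      ((isHomogeneous_X ℂ (1 : Fin 2)).pow 2)
  · simpa using (isHomogeneous_X ℂ (1 : Fin 2)).pow 4

theorem result : ∃ (d : ℕ) (f : MvPolynomial (Fin 2) ℂ) (K : Subfield ℂ),
    d = 4 ∧ f = 4 * X 0 ^ 4 + 6 * X 0 ^ 2 * X 1 ^ 2 + X 1 ^ 4 ∧ K = ⊥ ∧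
    3 ≤ d ∧ f.IsHomogeneous d ∧ (∀ m, coeff m f ∈ K) ∧
    ∃ r, IsLeast {r | (Reps K d f r).Nonempty} r ∧ (Reps K d f r).Finite ∧
      (Reps K d f r).ncard = 2 := by
  refine ⟨4, ff, ⊥, rfl, rfl, rfl, by norm_num, homog, coeffs, 3, least, ?_, ?_⟩
  · rw [reps3]; exact Set.toFinite _
  · rw [reps3]; exact Set.ncard_pair S_ne

end Pool.Agent.Results.MP_1ed635_nt.Two
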